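import Mathlib

namespace Pool.Agent.Results.MP_998457_co.Barrier

open Matrix Kronecker

/-- x is reached from 0 by single bit flips with every energy wt(δ y) on the way at most B. -/
def Reach {m n : Type} [Fintype m] [Fintype n] (δ : Matrix m n (ZMod 2)) (x : n → ZMod 2)
    (B : ℕ) : Prop :=
  ∃ (F : ℕ) (p : ℕ → n → ZMod 2), p 0 = 0 ∧ p F = x ∧
    (∀ i < F, hammingDist (p i) (p (i + 1)) = 1) ∧ ∀ i ≤ F, hammingNorm (δ *ᵥ p i) ≤ B

/-- The energy barrier of the code with parity-check matrix δ. -/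
noncomputable def barrier {m n : Type} [Fintype m] [Fintype n] (δ : Matrix m n (ZMod 2)) : ℕ :=
  sInf {B | ∃ x, x ≠ 0 ∧ δ *ᵥ x = 0 ∧ Reach δ x B}

/-- The minimum distance of the code with parity-check matrix δ. -/
noncomputable def dist {m n : Type} [Fintype m] [Fintype n] (δ : Matrix m n (ZMod 2)) : ℕ :=
  sInf {w | ∃ x, x ≠ 0 ∧ δ *ᵥ x = 0 ∧ hammingNorm x = w}

/-- The parity-check matrix of the tensor product code. -/
def tensor {ma na mb nb : ℕ} (a : Matrix (Fin ma) (Fin na) (ZMod 2))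
    (b : Matrix (Fin mb) (Fin nb) (ZMod 2)) :
    Matrix ((Fin ma × Fin nb) ⊕ (Fin na × Fin mb)) (Fin na × Fin nb) (ZMod 2) :=
  fromRows (a ⊗ₖ (1 : Matrix (Fin nb) (Fin nb) (ZMod 2)))
    ((1 : Matrix (Fin na) (Fin na) (ZMod 2)) ⊗ₖ b)

def A : Matrix (Fin 3) (Fin 4) (ZMod 2) := !![1, 1, 0, 0; 1, 0, 1, 0; 1, 1, 1, 1]

lemma kerA : ∀ x : Fin 4 → ZMod 2, x ≠ 0 → A *ᵥ x = 0 → x = fun _ => 1 := by decide +kernel

lemma distA : dist A = 4 := by
  have : {w | ∃ x, x ≠ 0 ∧ A *ᵥ x = 0 ∧ hammingNorm x = w} = {4} := by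
    ext w
    constructor
    · rintro ⟨x, h1, h2, rfl⟩
      rw [kerA x h1 h2]
      decide
    · rintro rfl
      exact ⟨fun _ => 1, by decide, by decide, by decide⟩
  rw [dist, this]
  simp

lemma barA : barrier A = 2 := by
  have h2 : 2 ∈ {B | ∃ x, x ≠ 0 ∧ A *ᵥ x = 0 ∧ Reach A x B} := by
    refine ⟨fun _ => 1, by decide, by decide, 4,
      fun i k => if [3, 1, 0, 2].idxOf k < i then 1 else 0, by decide, by decide, by decide, ?_⟩
    intro i hi
    interval_cases i <;> decide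
  apply le_antisymm (Nat.sInf_le h2)
  apply le_csInf ⟨2, h2⟩
  rintro B ⟨x, h1, h3, F, p, p0, pF, hs, he⟩
  by_contra hB
  have step : ∀ x y : Fin 4 → ZMod 2, (x 0 = 0 ∧ x 1 * x 2 = 0) → hammingNorm (A *ᵥ x) ≤ 1 →
      hammingDist x y = 1 → hammingNorm (A *ᵥ y) ≤ 1 → (y 0 = 0 ∧ y 1 * y 2 = 0) := by
    decide +kernel
  have inv : ∀ i ≤ F, p i 0 = 0 ∧ p i 1 * p i 2 = 0 := by
    intro i hi
    induction i with
    | zero => simp [p0]
    | succ i ih =>
      exact step _ _ (ih (by omega)) ((he i (by omega)).trans (by omega)) (hs i (by omega))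
        ((he (i + 1) hi).trans (by omega))
  have := (inv F le_rfl).1
  rw [pF, kerA x h1 h3] at this
  exact absurd this (by decide)

def path (i : ℕ) (k : Fin 4 × Fin 4) : ZMod 2 :=
  if [1, 5, 4, 0, 6, 2, 7, 3, 9, 8, 10, 11, 12, 13, 14, 15].idxOf (4 * k.1.val + k.2.val) < i then 1 else 0

lemma barC : barrier (tensor A A) ≤ 6 := by
  apply Nat.sInf_le
  have h : ∀ i < 17, hammingNorm (tensor A A *ᵥ path i) ≤ 6 := by decide +kernel
  exact ⟨path 16, by decide +kernel, by decide +kernel, 16, path, by decide +kernel, rfl,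
    by decide +kernel, fun i hi => h i (by omega)⟩

theorem result : ∃ a : Matrix (Fin 3) (Fin 4) (ZMod 2), (∃ x, x ≠ 0 ∧ a *ᵥ x = 0) ∧
    dist a = 4 ∧ barrier a = 2 ∧
    (∃ x, x ≠ 0 ∧ tensor a a *ᵥ x = 0 ∧ Reach (tensor a a) x 6) ∧
    barrier (tensor a a) < min (dist a * barrier a) (barrier a * dist a) := by
  refine ⟨A, ⟨fun _ => 1, by decide, by decide⟩, distA, barA, ?_, ?_⟩
  · have h : ∀ i < 17, hammingNorm (tensor A A *ᵥ path i) ≤ 6 := by decide +kernel
    exact ⟨path 16, by decide +kernel, by decide +kernel, 16, path, by decide +kernel, rfl,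
      by decide +kernel, fun i hi => h i (by omega)⟩
  · rw [distA, barA]
    exact lt_of_le_of_lt barC (by decide)

end Pool.Agent.Results.MP_998457_co.Barrier
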